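import Mathlib

set_option autoImplicit false

/-!
# An algebraic spatial lattice that embeds, within its variety, in no strongly spatial lattice

`TL` is the lattice of closed sets of the full binary tree with one extra point `∞`: a set
of nodes (finite 0-1 words) together with the information whether `∞` belongs to it, such
that the set of nodes is closed under extension of words, and `∞` belongs to it as soon as
it contains all words of some length (i.e. as soon as it meets every infinite branch).

`TL` is algebraic and spatial and satisfies one lattice identity `(ε)` in five variables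
which fails in every strongly spatial lattice that contains a copy of `TL`.
-/

namespace Pool.Agent.Results.MP_de5398_al.TreeLattice

universe u

/-! ### The notions of the problem, for arbitrary lattices -/

section Defs

variable {L : Type u} [Lattice L]

/-- `p` is a point (completely join-irreducible): `{x | x < p}` has a largest element. -/
def IsPoint (p : L) : Prop := ∃ q, IsGreatest {x : L | x < p} q

/-- `a` is compact: for every nonempty directed set `D` that has a join, `a ≤ ⋁ D` implies
`a ≤ d` for some `d ∈ D`. -/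
def IsCompactElt (a : L) : Prop :=
  ∀ D : Set L, D.Nonempty → DirectedOn (· ≤ ·) D → ∀ w, IsLUB D w → a ≤ w → ∃ d ∈ D, a ≤ d

/-- The finite set `X` is a join-cover of `p`: `p ≤ ⋁ X`. -/
def IsJoinCover (p : L) (X : Finset L) : Prop := ∃ w, IsLUB (X : Set L) w ∧ p ≤ w

/-- `X` refines `Y`: every element of `X` lies below some element of `Y`. -/
def Refines (X Y : Finset L) : Prop := ∀ x ∈ X, ∃ y ∈ Y, x ≤ y

/-- The join-cover `I` of `p` is minimal: every join-cover of `p` that refines `I`
contains `I`. -/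
def IsMinimalJoinCover (p : L) (I : Finset L) : Prop :=
  IsJoinCover p I ∧ ∀ Y : Finset L, IsJoinCover p Y → Refines Y I → I ⊆ Y

variable (L)

/-- `L` is spatial: every element is the join of a set of points. -/
def IsSpatial : Prop := ∀ a : L, ∃ S : Set L, (∀ p ∈ S, IsPoint p) ∧ IsLUB S a

/-- `L` is algebraic: it is complete and every element is a join of compact elements. -/
def IsAlgebraic : Prop :=
  (∀ S : Set L, (∃ a, IsLUB S a) ∧ ∃ b, IsGLB S b) ∧
    ∀ a : L, ∃ S : Set L, (∀ c ∈ S, IsCompactElt c) ∧ IsLUB S a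

/-- `L` is strongly spatial: it is spatial and for every point `p` and every join-cover `X`
of `p` there is a minimal join-cover of `p` that consists of points and refines `X`. -/
def IsStronglySpatial : Prop :=
  IsSpatial L ∧ ∀ p : L, IsPoint p → ∀ X : Finset L, IsJoinCover p X →
    ∃ I : Finset L, IsMinimalJoinCover p I ∧ (∀ q ∈ I, IsPoint q) ∧ Refines I X

end Defs

/-- Lattice terms in the variables `x₀, x₁, x₂, …`. -/
inductive LTerm : Type
  | var : ℕ → LTerm
  | join : LTerm → LTerm → LTerm
  | meet : LTerm → LTerm → LTerm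

/-- The value of a lattice term under an assignment of the variables. -/
def LTerm.eval {L : Type u} [Lattice L] (v : ℕ → L) : LTerm → L
  | .var n => v n
  | .join s t => s.eval v ⊔ t.eval v
  | .meet s t => s.eval v ⊓ t.eval v

/-- The lattice identity `s = t` holds in `L`. -/
def Satisfies (L : Type u) [Lattice L] (s t : LTerm) : Prop :=
  ∀ v : ℕ → L, s.eval v = t.eval v

/-- There is a lattice embedding of `L` into `M`. -/
def Embeds (L : Type) [Lattice L] (M : Type u) [Lattice M] : Prop :=
  ∃ f : LatticeHom L M, Function.Injective f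

/-- `L` embeds within its variety into `M`: there is a lattice embedding of `L` into `M`
and `M` satisfies every lattice identity that holds in `L`. -/
def EmbedsWithinVariety (L : Type) [Lattice L] (M : Type u) [Lattice M] : Prop :=
  Embeds L M ∧ ∀ s t : LTerm, Satisfies L s t → Satisfies M s t

/-! ### The lattice `TL` -/

/-- `A` contains all words of some length. -/
def Bar (A : Set (List Bool)) : Prop := ∃ k : ℕ, ∀ s : List Bool, s.length = k → s ∈ A

/-- The closed pairs: the set of words is closed under extension, and `∞` belongs to the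
pair as soon as the set contains all words of some length. -/
def Closed (x : Set (List Bool) × Prop) : Prop :=
  (∀ s ∈ x.1, ∀ t, s <+: t → t ∈ x.1) ∧ (Bar x.1 → x.2)

/-- The lattice of closed pairs, ordered by inclusion. -/
def TL : Type := {x : Set (List Bool) × Prop // Closed x}

namespace TL

/-- The set of words of a closed pair. -/
def words (x : TL) : Set (List Bool) := x.1.1

/-- `∞` belongs to the closed pair `x`. -/
def inf' (x : TL) : Prop := x.1.2

theorem words_ext (x : TL) {s t : List Bool} (hs : s ∈ x.words) (h : s <+: t) :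
    t ∈ x.words := x.2.1 s hs t h

theorem inf'_of_bar (x : TL) (h : Bar x.words) : x.inf' := x.2.2 h

/-- Constructor. -/
def mk' (A : Set (List Bool)) (P : Prop) (h1 : ∀ s ∈ A, ∀ t, s <+: t → t ∈ A)
    (h2 : Bar A → P) : TL := ⟨(A, P), h1, h2⟩

instance : LE TL := ⟨fun x y => x.words ⊆ y.words ∧ (x.inf' → y.inf')⟩

theorem le_def (x y : TL) : x ≤ y ↔ x.words ⊆ y.words ∧ (x.inf' → y.inf') := Iff.rfl

theorem bar_mono {A B : Set (List Bool)} (h : A ⊆ B) (hA : Bar A) : Bar B := by
  obtain ⟨k, hk⟩ := hA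
  exact ⟨k, fun s hs => h (hk s hs)⟩

instance : PartialOrder TL where
  le_refl x := ⟨subset_rfl, id⟩
  le_trans x y z h1 h2 := ⟨h1.1.trans h2.1, fun h => h2.2 (h1.2 h)⟩
  le_antisymm x y h1 h2 := by
    apply Subtype.ext
    apply Prod.ext
    · exact Set.Subset.antisymm h1.1 h2.1
    · exact propext ⟨h1.2, h2.2⟩

instance : Lattice TL where
  sup x y := mk' (x.words ∪ y.words) (x.inf' ∨ y.inf' ∨ Bar (x.words ∪ y.words))
    (by
      rintro s (hs | hs) t h
      · exact Or.inl (x.words_ext hs h)
      · exact Or.inr (y.words_ext hs h))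
    (fun h => Or.inr (Or.inr h))
  le_sup_left x y := ⟨Set.subset_union_left, fun h => Or.inl h⟩
  le_sup_right x y := ⟨Set.subset_union_right, fun h => Or.inr (Or.inl h)⟩
  sup_le x y z hx hy := by
    have h1 : x.words ∪ y.words ⊆ z.words := Set.union_subset hx.1 hy.1
    refine ⟨h1, ?_⟩
    rintro (h | h | h)
    · exact hx.2 h
    · exact hy.2 h
    · exact z.inf'_of_bar (bar_mono h1 h)
  inf x y := mk' (x.words ∩ y.words) (x.inf' ∧ y.inf')
    (by
      rintro s ⟨hs, hs'⟩ t h
      exact ⟨x.words_ext hs h, y.words_ext hs' h⟩)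
    (fun h => ⟨x.inf'_of_bar (bar_mono Set.inter_subset_left h),
      y.inf'_of_bar (bar_mono Set.inter_subset_right h)⟩)
  inf_le_left x y := ⟨Set.inter_subset_left, fun h => h.1⟩
  inf_le_right x y := ⟨Set.inter_subset_right, fun h => h.2⟩
  le_inf x y z hy hz := ⟨Set.subset_inter hy.1 hz.1, fun h => ⟨hy.2 h, hz.2 h⟩⟩

theorem words_sup (x y : TL) : (x ⊔ y).words = x.words ∪ y.words := rfl

theorem inf'_sup (x y : TL) :
    (x ⊔ y).inf' ↔ (x.inf' ∨ y.inf' ∨ Bar (x.words ∪ y.words)) := Iff.rfl

theorem words_inf (x y : TL) : (x ⊓ y).words = x.words ∩ y.words := rfl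

theorem inf'_inf (x y : TL) : (x ⊓ y).inf' ↔ (x.inf' ∧ y.inf') := Iff.rfl

/-- The join of a set of closed pairs. -/
def sSup' (S : Set TL) : TL :=
  mk' {s | ∃ x ∈ S, s ∈ x.words} ((∃ x ∈ S, x.inf') ∨ Bar {s | ∃ x ∈ S, s ∈ x.words})
    (by
      rintro s ⟨x, hx, hs⟩ t h
      exact ⟨x, hx, x.words_ext hs h⟩)
    (fun h => Or.inr h)

theorem isLUB_sSup' (S : Set TL) : IsLUB S (sSup' S) := by
  constructor
  · intro x hx
    exact ⟨fun s hs => ⟨x, hx, hs⟩, fun h => Or.inl ⟨x, hx, h⟩⟩
  · intro z hz
    have h1 : {s | ∃ x ∈ S, s ∈ x.words} ⊆ z.words := by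
      rintro s ⟨x, hx, hs⟩
      exact (hz hx).1 hs
    refine ⟨h1, ?_⟩
    rintro (⟨x, hx, h⟩ | h)
    · exact (hz hx).2 h
    · exact z.inf'_of_bar (bar_mono h1 h)

/-- The meet of a set of closed pairs. -/
def sInf' (S : Set TL) : TL :=
  mk' {s | ∀ x ∈ S, s ∈ x.words} (∀ x ∈ S, x.inf')
    (by
      intro s hs t h x hx
      exact x.words_ext (hs x hx) h)
    (fun h x hx => x.inf'_of_bar
      (bar_mono (A := {s | ∀ x ∈ S, s ∈ x.words}) (fun _ hs => hs x hx) h))

theorem isGLB_sInf' (S : Set TL) : IsGLB S (sInf' S) := by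
  constructor
  · intro x hx
    exact ⟨fun s hs => hs x hx, fun h => h x hx⟩
  · intro z hz
    exact ⟨fun s hs x hx => (hz hx).1 hs, fun h x hx => (hz hx).2 h⟩

theorem not_bar_of_comparable {A : Set (List Bool)} (t : List Bool)
    (h : ∀ s ∈ A, ¬ (s <+: t) ∧ ¬ (t <+: s)) : ¬ Bar A := by
  rintro ⟨k, hk⟩
  by_cases hkt : k ≤ t.length
  · have := hk (t.take k) (by simp [hkt])
    exact (h _ this).1 (List.take_prefix k t)
  · have := hk (t ++ List.replicate (k - t.length) false) (by simp; omega)
    exact (h _ this).2 (List.prefix_append t _)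

/-- The least closed pair: no words, without `∞`. -/
def zero : TL := mk' ∅ False (by simp) (by
  rintro ⟨k, hk⟩
  exact hk (List.replicate k false) (by simp))

/-- The pair consisting of `∞` only. -/
def pinf : TL := mk' ∅ True (by simp) (fun _ => trivial)

/-- The closed pair generated by a word `t`: all extensions of `t` (and `∞` if `t` is the
empty word). -/
def cone (t : List Bool) : TL := mk' {s | t <+: s} (t = [])
  (fun _ hs _ h => List.IsPrefix.trans hs h)
  (by
    rintro ⟨k, hk⟩
    by_contra ht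
    obtain ⟨b, t', rfl⟩ := List.exists_cons_of_ne_nil ht
    by_cases hk0 : k = 0
    · subst hk0
      have := hk [] rfl
      simp at this
    · have := hk (List.replicate k (!b)) (by simp)
      obtain ⟨k', rfl⟩ := Nat.exists_eq_succ_of_ne_zero hk0
      rw [List.replicate_succ] at this
      simp at this)

/-- All words incomparable with `t`. -/
def cocone (t : List Bool) : TL := mk' {s | ¬ (s <+: t) ∧ ¬ (t <+: s)} False
  (by
    rintro s ⟨h1, h2⟩ r hr
    refine ⟨fun h => h1 (hr.trans h), fun h => ?_⟩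
    rcases List.prefix_or_prefix_of_prefix hr h with h' | h'
    · exact h1 h'
    · exact h2 h')
  (fun h => not_bar_of_comparable t (fun _ hs => hs) h)

theorem cone_words (t : List Bool) : (cone t).words = {s | t <+: s} := rfl
theorem cone_inf (t : List Bool) : (cone t).inf' ↔ t = [] := Iff.rfl
theorem cocone_words (t : List Bool) :
    (cocone t).words = {s | ¬ (s <+: t) ∧ ¬ (t <+: s)} := rfl
theorem cocone_inf (t : List Bool) : ¬ (cocone t).inf' := id

theorem cone_le_iff (t : List Bool) (x : TL) : cone t ≤ x ↔ t ∈ x.words := by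
  constructor
  · intro h
    exact h.1 (List.prefix_refl t)
  · intro h
    refine ⟨fun s hs => x.words_ext h hs, ?_⟩
    intro ht
    have ht' : t = [] := ht
    subst ht'
    apply x.inf'_of_bar
    exact ⟨0, fun s hs => by
      rw [List.length_eq_zero_iff] at hs
      subst hs
      exact h⟩

theorem pinf_le_iff (x : TL) : pinf ≤ x ↔ x.inf' := by
  constructor
  · intro h
    exact h.2 trivial
  · intro h
    exact ⟨by intro s hs; exact absurd hs (by simp [pinf, words, mk']), fun _ => h⟩

theorem isPoint_pinf : IsPoint pinf := by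
  refine ⟨zero, ?_, ?_⟩
  · constructor
    · exact ⟨fun s hs => hs, fun h => h.elim⟩
    · intro h
      exact h.2 trivial
  · intro x hx
    refine ⟨hx.1.1, fun h => ?_⟩
    exact hx.2 ((pinf_le_iff x).2 h)

theorem isPoint_cone (t : List Bool) : IsPoint (cone t) := by
  refine ⟨mk' {s | t <+: s ∧ s ≠ t} (t = []) ?_ ?_, ?_, ?_⟩
  · rintro s ⟨h1, h2⟩ r hr
    refine ⟨h1.trans hr, ?_⟩
    rintro rfl
    exact h2 (List.IsPrefix.eq_of_length_le h1 hr.length_le).symm
  · intro h
    exact (cone t).inf'_of_bar (bar_mono (fun s hs => hs.1) h)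
  · constructor
    · exact ⟨fun s hs => hs.1, id⟩
    · intro h
      have := h.1 (List.prefix_refl t)
      exact this.2 rfl
  · intro x hx
    refine ⟨?_, hx.1.2⟩
    intro s hs
    refine ⟨hx.1.1 hs, ?_⟩
    rintro rfl
    exact hx.2 ((cone_le_iff s x).2 hs)

/-- The points below `x`. -/
def gens (x : TL) : Set TL := {y | (∃ t ∈ x.words, y = cone t) ∨ (x.inf' ∧ y = pinf)}

theorem isLUB_gens (x : TL) : IsLUB (gens x) x := by
  constructor
  · rintro y (⟨t, ht, rfl⟩ | ⟨h, rfl⟩)
    · exact (cone_le_iff t x).2 ht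
    · exact (pinf_le_iff x).2 h
  · intro z hz
    refine ⟨?_, ?_⟩
    · intro s hs
      exact (cone_le_iff s z).1 (hz (Or.inl ⟨s, hs, rfl⟩))
    · intro h
      exact (pinf_le_iff z).1 (hz (Or.inr ⟨h, rfl⟩))

theorem isSpatial : IsSpatial TL := by
  intro x
  refine ⟨gens x, ?_, isLUB_gens x⟩
  rintro y (⟨t, _, rfl⟩ | ⟨_, rfl⟩)
  · exact isPoint_cone t
  · exact isPoint_pinf

/-- The finite set of words of length `k`. -/
noncomputable def level (k : ℕ) : Finset (List Bool) := (List.finite_length_eq Bool k).toFinset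

theorem mem_level (k : ℕ) (s : List Bool) : s ∈ level k ↔ s.length = k := by
  simp [level]

theorem directed_finite {D : Set TL} (hne : D.Nonempty) (hD : DirectedOn (· ≤ ·) D)
    (F : Finset (List Bool)) (hF : ∀ s ∈ F, ∃ x ∈ D, s ∈ x.words) :
    ∃ x ∈ D, ∀ s ∈ F, s ∈ x.words := by
  classical
  induction F using Finset.induction_on with
  | empty =>
    obtain ⟨x, hx⟩ := hne
    exact ⟨x, hx, by simp⟩
  | insert a F _ ih =>
    obtain ⟨x, hx, hxF⟩ := ih (fun s hs => hF s (Finset.mem_insert_of_mem hs))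
    obtain ⟨y, hy, hya⟩ := hF a (Finset.mem_insert_self a F)
    obtain ⟨z, hz, hxz, hyz⟩ := hD x hx y hy
    refine ⟨z, hz, ?_⟩
    intro s hs
    rcases Finset.mem_insert.1 hs with rfl | hs
    · exact hyz.1 hya
    · exact hxz.1 (hxF s hs)

/-- In `TL`, joins of directed sets are unions. -/
theorem directed_join {D : Set TL} (hne : D.Nonempty) (hD : DirectedOn (· ≤ ·) D) {w : TL}
    (hw : IsLUB D w) : (∀ s ∈ w.words, ∃ x ∈ D, s ∈ x.words) ∧ (w.inf' → ∃ x ∈ D, x.inf') := by
  have hww : w = sSup' D := hw.unique (isLUB_sSup' D)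
  subst hww
  refine ⟨fun s hs => hs, ?_⟩
  rintro (h | ⟨k, hk⟩)
  · exact h
  · obtain ⟨x, hx, hxk⟩ := directed_finite hne hD (level k)
      (fun s hs => hk s ((mem_level k s).1 hs))
    exact ⟨x, hx, x.inf'_of_bar ⟨k, fun s hs => hxk s ((mem_level k s).2 hs)⟩⟩

theorem isCompact_cone (t : List Bool) : IsCompactElt (cone t) := by
  intro D hne hD w hw h
  obtain ⟨x, hx, hxt⟩ := (directed_join hne hD hw).1 t ((cone_le_iff t w).1 h)
  exact ⟨x, hx, (cone_le_iff t x).2 hxt⟩

theorem isCompact_pinf : IsCompactElt pinf := by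
  intro D hne hD w hw h
  obtain ⟨x, hx, hxt⟩ := (directed_join hne hD hw).2 ((pinf_le_iff w).1 h)
  exact ⟨x, hx, (pinf_le_iff x).2 hxt⟩

theorem isAlgebraic : IsAlgebraic TL := by
  refine ⟨fun S => ⟨⟨_, isLUB_sSup' S⟩, ⟨_, isGLB_sInf' S⟩⟩, ?_⟩
  intro x
  refine ⟨gens x, ?_, isLUB_gens x⟩
  rintro y (⟨t, _, rfl⟩ | ⟨_, rfl⟩)
  · exact isCompact_cone t
  · exact isCompact_pinf

/-! ### The identity -/

theorem bar_inter {A B : Set (List Bool)} (hA : ∀ s ∈ A, ∀ t, s <+: t → t ∈ A)
    (hB : ∀ s ∈ B, ∀ t, s <+: t → t ∈ B) (h1 : Bar A) (h2 : Bar B) : Bar (A ∩ B) := by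
  obtain ⟨k, hk⟩ := h1
  obtain ⟨l, hl⟩ := h2
  refine ⟨max k l, fun s hs => ⟨?_, ?_⟩⟩
  · exact hA (s.take k) (hk _ (by simp [hs])) s (List.take_prefix _ _)
  · exact hB (s.take l) (hl _ (by simp [hs])) s (List.take_prefix _ _)

/-- The lattice inequality satisfied by `TL`. -/
theorem ineq (p x₁ x₂ y₁ y₂ : TL) :
    p ⊓ (x₁ ⊔ x₂) ⊓ (y₁ ⊔ y₂) ≤
      (p ⊓ x₁) ⊔ (p ⊓ x₂) ⊔ (p ⊓ y₁) ⊔ (p ⊓ y₂) ⊔ (p ⊓ ((x₁ ⊓ y₁) ⊔ (x₁ ⊓ y₂) ⊔ x₂)) := by
  constructor
  · rintro s ⟨⟨hp, hx⟩, hy⟩
    rcases hx with hx | hx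
    · exact Or.inl (Or.inl (Or.inl (Or.inl ⟨hp, hx⟩)))
    · exact Or.inl (Or.inl (Or.inl (Or.inr ⟨hp, hx⟩)))
  · rintro ⟨⟨hp, hx⟩, hy⟩
    rcases hx with hx | hx | hx
    · exact Or.inl (Or.inl (Or.inl (Or.inl ⟨hp, hx⟩)))
    · exact Or.inl (Or.inl (Or.inl (Or.inr (Or.inl ⟨hp, hx⟩))))
    · rcases hy with hy | hy | hy
      · exact Or.inl (Or.inl (Or.inr (Or.inl ⟨hp, hy⟩)))
      · exact Or.inl (Or.inr (Or.inl ⟨hp, hy⟩))
      · refine Or.inr (Or.inl ⟨hp, ?_⟩)
        apply inf'_of_bar
        have hb := bar_inter (x₁ ⊔ x₂).2.1 (y₁ ⊔ y₂).2.1 hx hy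
        refine bar_mono ?_ hb
        rintro s ⟨hs1 | hs1, hs2 | hs2⟩
        · exact Or.inl (Or.inl ⟨hs1, hs2⟩)
        · exact Or.inl (Or.inr ⟨hs1, hs2⟩)
        · exact Or.inr hs1
        · exact Or.inr hs1

/-- The left-hand side of the inequality, as a lattice term. -/
def lhs : LTerm :=
  .meet (.meet (.var 0) (.join (.var 1) (.var 2))) (.join (.var 3) (.var 4))

/-- The right-hand side of the inequality, as a lattice term. -/
def rhs : LTerm :=
  .join (.join (.join (.join (.meet (.var 0) (.var 1)) (.meet (.var 0) (.var 2)))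
    (.meet (.var 0) (.var 3))) (.meet (.var 0) (.var 4)))
    (.meet (.var 0) (.join (.join (.meet (.var 1) (.var 3)) (.meet (.var 1) (.var 4)))
      (.var 2)))

theorem satisfies_identity : Satisfies TL (.meet lhs rhs) lhs := by
  intro v
  exact inf_eq_left.2 (ineq (v 0) (v 1) (v 2) (v 3) (v 4))

theorem ineq_of_satisfies {M : Type u} [Lattice M] (h : Satisfies M (.meet lhs rhs) lhs)
    (p x₁ x₂ y₁ y₂ : M) :
    p ⊓ (x₁ ⊔ x₂) ⊓ (y₁ ⊔ y₂) ≤
      (p ⊓ x₁) ⊔ (p ⊓ x₂) ⊔ (p ⊓ y₁) ⊔ (p ⊓ y₂) ⊔ (p ⊓ ((x₁ ⊓ y₁) ⊔ (x₁ ⊓ y₂) ⊔ x₂)) := by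
  have := h (fun n => match n with
    | 0 => p
    | 1 => x₁
    | 2 => x₂
    | 3 => y₁
    | _ => y₂)
  exact inf_eq_left.1 this

/-! ### The tree inside a strongly spatial lattice -/

theorem sup_lt_of_point {M : Type u} [Lattice M] {P : M} (hP : IsPoint P) {a b : M}
    (ha : a < P) (hb : b < P) : a ⊔ b < P := by
  obtain ⟨q, hq, hq'⟩ := hP
  exact lt_of_le_of_lt (sup_le (hq' ha) (hq' hb)) hq

theorem inf_lt_of_not_le {M : Type u} [Lattice M] {P a : M} (h : ¬ P ≤ a) : P ⊓ a < P :=
  lt_of_le_of_ne inf_le_left (fun h' => h (inf_eq_left.1 h'))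

theorem pinf_inf_cone {t : List Bool} (ht : t ≠ []) : pinf ⊓ cone t = zero := by
  apply le_antisymm
  · refine ⟨fun s hs => hs.1, fun h => ht h.2⟩
  · exact ⟨fun s hs => hs.elim, fun h => h.elim⟩

theorem pinf_inf_cocone (t : List Bool) : pinf ⊓ cocone t = zero := by
  apply le_antisymm
  · refine ⟨fun s hs => hs.1, fun h => h.2⟩
  · exact ⟨fun s hs => hs.elim, fun h => h.elim⟩

theorem pinf_le_sup (t : List Bool) : pinf ≤ cone t ⊔ cocone t := by
  rw [pinf_le_iff]
  refine Or.inr (Or.inr ⟨t.length, fun s hs => ?_⟩)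
  by_cases h : t <+: s
  · exact Or.inl h
  · refine Or.inr ⟨fun h' => h ?_, h⟩
    rw [List.IsPrefix.eq_of_length h' hs]

theorem cocone_mono {t t' : List Bool} (h : t <+: t') : cocone t ≤ cocone t' := by
  refine ⟨?_, id⟩
  rintro s ⟨h1, h2⟩
  refine ⟨fun h' => ?_, fun h' => h2 (h.trans h')⟩
  rcases List.prefix_or_prefix_of_prefix h' h with h'' | h''
  · exact h1 h''
  · exact h2 h''

theorem cone_le_cocone (t : List Bool) : cone (t ++ [false]) ≤ cocone (t ++ [true]) := by
  rw [cone_le_iff]
  refine ⟨fun h => ?_, fun h => ?_⟩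
  · have := List.IsPrefix.eq_of_length h (by simp)
    simp at this
  · have := List.IsPrefix.eq_of_length h (by simp)
    simp at this

theorem main {M : Type u} [Lattice M] (hM : IsStronglySpatial M)
    (hid : Satisfies M (.meet lhs rhs) lhs) (f : LatticeHom TL M)
    (hf : Function.Injective f) : False := by
  classical
  have fmono : ∀ {x y : TL}, x ≤ y → f x ≤ f y := fun {x y} h => OrderHomClass.mono f h
  -- a point `P` below `f ∞` and not below `f 0`
  obtain ⟨P, hP, hPle, hP0⟩ : ∃ P : M, IsPoint P ∧ P ≤ f pinf ∧ ¬ P ≤ f zero := by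
    obtain ⟨S, hS, hlub⟩ := hM.1 (f pinf)
    by_contra hcon
    push Not at hcon
    have h1 : f pinf ≤ f zero := hlub.2 (fun P hPS => hcon P (hS P hPS) (hlub.1 hPS))
    have h2 : f (pinf ⊓ zero) = f pinf := by
      rw [map_inf]
      exact inf_eq_left.2 h1
    have h3 := hf h2
    have h4 : pinf ≤ zero := inf_eq_left.1 h3
    exact (pinf_le_iff zero).1 h4
  have hcone : ∀ {t : List Bool}, t ≠ [] → ¬ P ≤ f (cone t) := by
    intro t ht h
    apply hP0
    rw [← pinf_inf_cone ht, map_inf]
    exact le_inf hPle h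
  have hcocone : ∀ t : List Bool, ¬ P ≤ f (cocone t) := by
    intro t h
    apply hP0
    rw [← pinf_inf_cocone t, map_inf]
    exact le_inf hPle h
  have hsup : ∀ t : List Bool, P ≤ f (cone t) ⊔ f (cocone t) := by
    intro t
    rw [← map_sup]
    exact hPle.trans (fmono (pinf_le_sup t))
  -- the join-cover
  have hc01 : cone [true] ≤ cocone [false] := by
    rw [cone_le_iff]
    refine ⟨fun h => ?_, fun h => ?_⟩
    · have := List.IsPrefix.eq_of_length h rfl
      simp at this
    · have := List.IsPrefix.eq_of_length h rfl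
      simp at this
  obtain ⟨I, ⟨⟨w, hw, hPw⟩, hmin⟩, -, href⟩ := hM.2 P hP {f (cone [false]), f (cocone [false])}
    ⟨f (cone [false]) ⊔ f (cocone [false]), by
      rw [Finset.coe_insert, Finset.coe_singleton]
      exact isLUB_pair, hsup _⟩
  have hnotle : ∀ q ∈ I, ¬ P ≤ q := by
    intro q hq h
    obtain ⟨y, hy, hqy⟩ := href q hq
    rcases Finset.mem_insert.1 hy with rfl | hy
    · exact hcone (by simp) (h.trans hqy)
    · rw [Finset.mem_singleton] at hy
      subst hy
      exact hcocone _ (h.trans hqy)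
  -- dichotomy
  have hdich : ∀ q ∈ I, ∀ t : List Bool, t ≠ [] → q ≤ f (cone t) ∨ q ≤ f (cocone t) := by
    intro q hq t ht
    by_cases hne : (I.erase q).Nonempty
    · set X₂ : M := (I.erase q).sup' hne id with hX₂
      have hX₂lub : IsLUB ((I.erase q : Finset M) : Set M) X₂ := by
        constructor
        · intro y hy
          exact Finset.le_sup' id (Finset.mem_coe.1 hy)
        · intro z hz
          exact Finset.sup'_le hne id (fun y hy => hz (Finset.mem_coe.2 hy))
      have hPX₂ : ¬ P ≤ X₂ := by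
        intro h
        have := hmin (I.erase q) ⟨X₂, hX₂lub, h⟩
          (fun x hx => ⟨x, Finset.mem_of_mem_erase hx, le_rfl⟩) hq
        exact Finset.notMem_erase q I this
      have hPsup : P ≤ q ⊔ X₂ := by
        refine hPw.trans (hw.2 ?_)
        intro y hy
        by_cases hyq : y = q
        · subst hyq
          exact le_sup_left
        · exact (hX₂lub.1 (Finset.mem_coe.2 (Finset.mem_erase.2 ⟨hyq, hy⟩))).trans
            le_sup_right
      have key := ineq_of_satisfies hid P q X₂ (f (cone t)) (f (cocone t))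
      have hPP : P ≤ P ⊓ (q ⊔ X₂) ⊓ (f (cone t) ⊔ f (cocone t)) :=
        le_inf (le_inf le_rfl hPsup) (hsup t)
      have hle := hPP.trans key
      have hPlast : P ≤ (q ⊓ f (cone t)) ⊔ (q ⊓ f (cocone t)) ⊔ X₂ := by
        by_contra hcon
        have h5 := inf_lt_of_not_le hcon
        have h1 := inf_lt_of_not_le (hnotle q hq)
        have h2 := inf_lt_of_not_le hPX₂
        have h3 := inf_lt_of_not_le (hcone ht)
        have h4 := inf_lt_of_not_le (hcocone t)
        have := sup_lt_of_point hP (sup_lt_of_point hP (sup_lt_of_point hP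
          (sup_lt_of_point hP h1 h2) h3) h4) h5
        exact absurd hle (not_le_of_gt this)
      -- the new join-cover
      have hY := hmin (insert (q ⊓ f (cone t)) (insert (q ⊓ f (cocone t)) (I.erase q)))
        ⟨(q ⊓ f (cone t)) ⊔ (q ⊓ f (cocone t)) ⊔ X₂, ?_, hPlast⟩ ?_ hq
      · rcases Finset.mem_insert.1 hY with h | h
        · left
          rw [h]
          exact inf_le_right
        · rcases Finset.mem_insert.1 h with h | h
          · right
            rw [h]
            exact inf_le_right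
          · exact absurd h (Finset.notMem_erase q I)
      · rw [Finset.coe_insert, Finset.coe_insert]
        constructor
        · rintro y (rfl | rfl | hy)
          · exact le_sup_left.trans le_sup_left
          · exact le_sup_right.trans le_sup_left
          · exact (hX₂lub.1 hy).trans le_sup_right
        · intro z hz
          refine sup_le (sup_le (hz (Or.inl rfl)) (hz (Or.inr (Or.inl rfl)))) ?_
          exact hX₂lub.2 (fun y hy => hz (Or.inr (Or.inr hy)))
      · intro x hx
        rcases Finset.mem_insert.1 hx with rfl | hx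
        · exact ⟨q, hq, inf_le_left⟩
        · rcases Finset.mem_insert.1 hx with rfl | hx
          · exact ⟨q, hq, inf_le_left⟩
          · exact ⟨x, Finset.mem_of_mem_erase hx, le_rfl⟩
    · exfalso
      rw [Finset.not_nonempty_iff_eq_empty] at hne
      apply hnotle q hq
      refine hPw.trans (hw.2 ?_)
      intro y hy
      by_contra hyq
      have : y ∈ I.erase q := Finset.mem_erase.2 ⟨fun h => hyq (h ▸ le_rfl), hy⟩
      rw [hne] at this
      simp at this
  -- escape from all elements of `I` along a branch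
  have hesc : ∀ J : Finset M, J ⊆ I → ∃ t : List Bool, t ≠ [] ∧ ∀ q ∈ J, q ≤ f (cocone t) := by
    intro J
    induction J using Finset.induction_on with
    | empty => exact fun _ => ⟨[false], by simp, by simp⟩
    | insert a J _ ih =>
      intro hJ
      obtain ⟨t, ht, hJt⟩ := ih (fun x hx => hJ (Finset.mem_insert_of_mem hx))
      have ha : a ∈ I := hJ (Finset.mem_insert_self a J)
      rcases hdich a ha (t ++ [false]) (by simp) with h | h
      · refine ⟨t ++ [true], by simp, ?_⟩
        intro q hq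
        rcases Finset.mem_insert.1 hq with rfl | hq
        · exact h.trans (fmono (cone_le_cocone t))
        · exact (hJt q hq).trans (fmono (cocone_mono (List.prefix_append _ _)))
      · refine ⟨t ++ [false], by simp, ?_⟩
        intro q hq
        rcases Finset.mem_insert.1 hq with rfl | hq
        · exact h
        · exact (hJt q hq).trans (fmono (cocone_mono (List.prefix_append _ _)))
  obtain ⟨t, ht, hIt⟩ := hesc I subset_rfl
  exact hcocone t (hPw.trans (hw.2 (fun q hq => hIt q hq)))

end TL

/-- There is an algebraic spatial lattice `L` and a lattice identity `s = t` that holds in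
`L` and fails in every strongly spatial lattice (algebraic or not) into which `L` can be
embedded. In particular `L` does not embed within its variety into any (algebraic)
strongly spatial lattice. -/
theorem result : ∃ (L : Type) (_ : Lattice L), IsAlgebraic L ∧ IsSpatial L ∧
    (∃ s t : LTerm, Satisfies L s t ∧ ∀ (M : Type u) [Lattice M], IsStronglySpatial M →
      Embeds L M → ¬ Satisfies M s t) ∧
    (∀ (M : Type u) [Lattice M], IsStronglySpatial M → ¬ EmbedsWithinVariety L M) := by
  refine ⟨TL, inferInstance, TL.isAlgebraic, TL.isSpatial, ?_, ?_⟩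
  · refine ⟨_, _, TL.satisfies_identity, ?_⟩
    rintro M _ hM ⟨f, hf⟩ hid
    exact TL.main hM hid f hf
  · rintro M _ hM ⟨⟨f, hf⟩, hid⟩
    exact TL.main hM (hid _ _ TL.satisfies_identity) f hf

end Pool.Agent.Results.MP_de5398_al.TreeLattice
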